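import Pool.Agent.N783.PQ.Lat

set_option autoImplicit false

/-!
# PQ/MAJ: the majorant of the form of a lattice
-/

open Polynomial Matrix NumberField
open scoped ComplexConjugate

namespace Pool.Agent.N348.PQ.MAJ

open Pool.Agent.N783.PQ
open Pool.Agent.N352.PJ (Mt Typ dd)

/-! ### Linear algebra -/

section lin

variable {n : ℕ} (V : Matrix (Fin n) (Fin n) ℂ) (D : Fin n → ℂ)

/-- the majorant -/
noncomputable def HH : Matrix (Fin n) (Fin n) ℝ :=
  Matrix.of fun i j => ∑ k, ‖D k‖ * (V k i * conj (V k j)).re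

/-- the values at the embeddings -/
noncomputable def vx (x : Fin n → ℝ) (k : Fin n) : ℂ := ∑ i, V k i * (x i : ℂ)

theorem sq_norm' (z : ℂ) : ‖z‖ ^ 2 = (z * conj z).re := by
  rw [Complex.mul_conj, Complex.normSq_eq_norm_sq, Complex.ofReal_re]

theorem HH_form (x : Fin n → ℝ) : x ⬝ᵥ (HH V D *ᵥ x) = ∑ k, ‖D k‖ * ‖vx V x k‖ ^ 2 := by
  have h1 : x ⬝ᵥ (HH V D *ᵥ x) =
      ∑ i, ∑ j, ∑ k, ‖D k‖ * (x i * x j * (V k i * conj (V k j)).re) := by
    simp only [dotProduct, mulVec, HH, of_apply, Finset.mul_sum, Finset.sum_mul]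
    refine Finset.sum_congr rfl fun i _ => Finset.sum_congr rfl fun j _ =>
      Finset.sum_congr rfl fun k _ => ?_
    ring
  have h2 : ∀ k, ‖vx V x k‖ ^ 2 = ∑ i, ∑ j, x i * x j * (V k i * conj (V k j)).re := by
    intro k
    rw [sq_norm', vx, map_sum, Finset.sum_mul_sum, Complex.re_sum]
    refine Finset.sum_congr rfl fun i _ => ?_
    rw [Complex.re_sum]
    refine Finset.sum_congr rfl fun j _ => ?_
    have h3 : V k i * (x i : ℂ) * conj (V k j * (x j : ℂ)) =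
        ((x i * x j : ℝ) : ℂ) * (V k i * conj (V k j)) := by
      rw [map_mul, Complex.conj_ofReal]
      push_cast
      ring
    rw [h3, Complex.re_ofReal_mul]
  rw [h1]
  simp only [h2, Finset.mul_sum]
  rw [Finset.sum_congr rfl fun i _ => Finset.sum_comm, Finset.sum_comm]

theorem HH_symm : (HH V D).IsSymm := by
  ext i j
  rw [transpose_apply, HH, of_apply, of_apply]
  refine Finset.sum_congr rfl fun k _ => ?_
  congr 1
  have h1 : V k j * conj (V k i) = conj (V k i * conj (V k j)) := by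
    rw [map_mul, Complex.conj_conj]
    ring
  rw [h1, Complex.conj_re]

theorem vx_ne (hV : V.det ≠ 0) {x : Fin n → ℝ} (hx : x ≠ 0) : ∃ k, vx V x k ≠ 0 := by
  by_contra hcon
  push Not at hcon
  apply hx
  have h1 : V *ᵥ (fun i => (x i : ℂ)) = 0 := by
    funext k
    exact hcon k
  have h2 := Matrix.eq_zero_of_mulVec_eq_zero hV h1
  funext i
  have h3 := congrFun h2 i
  simpa using h3

theorem HH_pos (hV : V.det ≠ 0) (hD : ∀ k, D k ≠ 0) : (HH V D).PosDef := by
  refine PosDef.of_dotProduct_mulVec_pos ?_ fun x hx => ?_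
  · have h1 := HH_symm V D
    rw [IsHermitian, conjTranspose_eq_transpose_of_trivial]
    exact h1
  · rw [star_trivial, HH_form]
    obtain ⟨k, hk⟩ := vx_ne V hV hx
    refine Finset.sum_pos' (fun k _ => by positivity) ⟨k, Finset.mem_univ _, ?_⟩
    have h1 := norm_pos_iff.2 (hD k)
    have h2 := norm_pos_iff.2 hk
    positivity

/-- the determinant -/
theorem HH_det (c : Equiv.Perm (Fin n)) (hV : ∀ k i, V (c k) i = conj (V k i))
    (hD : ∀ k, D (c k) = conj (D k)) (h1 : ‖V.det ^ 2 * ∏ k, D k‖ = 1) : (HH V D).det = 1 := by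
  have hG : Vᴴ * (diagonal fun k => ((‖D k‖ : ℝ) : ℂ)) * V = (HH V D).map Complex.ofRealHom := by
    ext i j
    have h2 : (Vᴴ * (diagonal fun k => ((‖D k‖ : ℝ) : ℂ)) * V) i j =
        ∑ k, (‖D k‖ : ℂ) * (conj (V k i) * V k j) := by
      rw [mul_apply]
      refine Finset.sum_congr rfl fun k _ => ?_
      rw [mul_diagonal, conjTranspose_apply]
      change conj (V k i) * _ * _ = _
      ring
    have h3 : conj (∑ k, (‖D k‖ : ℂ) * (conj (V k i) * V k j)) =
        ∑ k, (‖D k‖ : ℂ) * (conj (V k i) * V k j) := by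
      rw [map_sum, ← Equiv.sum_comp c fun k => (‖D k‖ : ℂ) * (conj (V k i) * V k j)]
      refine Finset.sum_congr rfl fun k _ => ?_
      rw [hV, hV, hD, map_mul, map_mul, Complex.conj_ofReal, RCLike.norm_conj]
    have h4 := Complex.conj_eq_iff_re.1 h3
    rw [h2, ← h4, map_apply, Complex.ofRealHom_eq_coe, HH, of_apply, Complex.re_sum]
    congr 1
    refine Finset.sum_congr rfl fun k _ => ?_
    rw [Complex.re_ofReal_mul]
    have h5 : conj (V k i) * V k j = conj (V k i * conj (V k j)) := by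
      rw [map_mul, Complex.conj_conj]
    rw [h5, Complex.conj_re]
  have h2 := congrArg Matrix.det hG
  rw [det_mul, det_mul, det_conjTranspose, det_diagonal] at h2
  have h3 : ((HH V D).map Complex.ofRealHom).det = (((HH V D).det : ℝ) : ℂ) :=
    (RingHom.map_det Complex.ofRealHom (HH V D)).symm
  rw [h3] at h2
  have h4 : star V.det * (∏ k, ((‖D k‖ : ℝ) : ℂ)) * V.det =
      ((‖V.det ^ 2 * ∏ k, D k‖ : ℝ) : ℂ) := by
    rw [norm_mul, norm_pow, norm_prod]
    push_cast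
    have h5 : star V.det * V.det = ((‖V.det‖ : ℝ) : ℂ) ^ 2 := by
      change conj V.det * V.det = _
      rw [mul_comm, Complex.mul_conj, Complex.normSq_eq_norm_sq]
      push_cast
      rfl
    rw [← h5]
    ring
  rw [h4, h1] at h2
  exact_mod_cast h2.symm

/-- bilinear forms -/
theorem bil (M : Matrix (Fin n) (Fin n) ℝ) (c : Fin n → ℂ)
    (h : ∀ i j, (M i j : ℂ) = ∑ k, c k * V k i * V k j) (x y : Fin n → ℝ) :
    ((x ⬝ᵥ (M *ᵥ y) : ℝ) : ℂ) = ∑ k, c k * vx V x k * vx V y k := by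
  have h1 : ((x ⬝ᵥ (M *ᵥ y) : ℝ) : ℂ) =
      ∑ i, ∑ j, ∑ k, c k * (V k i * x i) * (V k j * y j) := by
    simp only [dotProduct, mulVec, Finset.mul_sum]
    push_cast
    refine Finset.sum_congr rfl fun i _ => Finset.sum_congr rfl fun j _ => ?_
    rw [h, Finset.sum_mul, Finset.mul_sum]
    refine Finset.sum_congr rfl fun k _ => ?_
    ring
  rw [h1]
  simp only [vx, Finset.mul_sum, Finset.sum_mul]
  rw [Finset.sum_congr rfl fun i _ => Finset.sum_comm, Finset.sum_comm]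
  refine Finset.sum_congr rfl fun k _ => ?_
  rw [Finset.sum_comm]

theorem cs (w : Fin n → ℝ) (hw : ∀ k, 0 ≤ w k) (T : ℝ) (c : Fin n → ℂ)
    (hc : ∀ k, ‖c k‖ ≤ T * w k) (a b : Fin n → ℂ) :
    ‖∑ k, c k * a k * b k‖ ^ 2 ≤ T ^ 2 * ((∑ k, w k * ‖a k‖ ^ 2) * ∑ k, w k * ‖b k‖ ^ 2) := by
  have h1 : ‖∑ k, c k * a k * b k‖ ≤ T * ∑ k, (Real.sqrt (w k) * ‖a k‖) * (Real.sqrt (w k) * ‖b k‖) := by
    refine (norm_sum_le _ _).trans ?_
    rw [Finset.mul_sum]
    refine Finset.sum_le_sum fun k _ => ?_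
    rw [norm_mul, norm_mul]
    calc ‖c k‖ * ‖a k‖ * ‖b k‖ ≤ (T * w k) * ‖a k‖ * ‖b k‖ := by gcongr; exact hc k
      _ = T * ((Real.sqrt (w k) * Real.sqrt (w k)) * (‖a k‖ * ‖b k‖)) := by
          rw [Real.mul_self_sqrt (hw k)]
          ring
      _ = _ := by ring
  have h2 := Finset.sum_mul_sq_le_sq_mul_sq Finset.univ (fun k => Real.sqrt (w k) * ‖a k‖)
    (fun k => Real.sqrt (w k) * ‖b k‖)
  have h3 : ∀ u : Fin n → ℂ, ∑ k, (Real.sqrt (w k) * ‖u k‖) ^ 2 = ∑ k, w k * ‖u k‖ ^ 2 := by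
    intro u
    refine Finset.sum_congr rfl fun k _ => ?_
    rw [mul_pow, Real.sq_sqrt (hw k)]
  rw [h3, h3] at h2
  calc ‖∑ k, c k * a k * b k‖ ^ 2
      ≤ (T * ∑ k, (Real.sqrt (w k) * ‖a k‖) * (Real.sqrt (w k) * ‖b k‖)) ^ 2 :=
        pow_le_pow_left₀ (norm_nonneg _) h1 2
    _ = T ^ 2 * (∑ k, (Real.sqrt (w k) * ‖a k‖) * (Real.sqrt (w k) * ‖b k‖)) ^ 2 := by ring
    _ ≤ _ := mul_le_mul_of_nonneg_left h2 (sq_nonneg T)

theorem det_eq (A : Matrix (Fin n) (Fin n) ℤ)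
    (h1 : ∀ i j, ((A i j : ℤ) : ℂ) = ∑ k, D k * V k i * V k j) :
    ((A.det : ℤ) : ℂ) = V.det ^ 2 * ∏ k, D k := by
  have e1 : (Int.castRingHom ℂ).mapMatrix A = Vᵀ * diagonal D * V := by
    ext i j
    change ((A i j : ℤ) : ℂ) = _
    rw [h1, mul_apply]
    refine Finset.sum_congr rfl fun k _ => ?_
    rw [mul_diagonal, transpose_apply]
    ring
  have e2 := RingHom.map_det (Int.castRingHom ℂ) A
  rw [e1, det_mul, det_mul, det_transpose, det_diagonal] at e2
  have e3 : (Int.castRingHom ℂ) A.det = ((A.det : ℤ) : ℂ) := rfl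
  rw [← e3, e2]
  ring

/-- the powers of the operator -/
theorem pow_form (hV : V.det ≠ 0) (hD : ∀ k, D k ≠ 0) (th : Fin n → ℂ)
    (A A' : Matrix (Fin n) (Fin n) ℤ) (hA : IsUnit A.det)
    (h1 : ∀ i j, ((A i j : ℤ) : ℂ) = ∑ k, D k * V k i * V k j)
    (h2 : ∀ i j, ((A' i j : ℤ) : ℂ) = ∑ k, D k * th k * V k i * V k j) (m : ℕ) (i j : Fin n) :
    (((A * (A⁻¹ * A') ^ m) i j : ℤ) : ℂ) = ∑ k, D k * th k ^ m * V k i * V k j := by
  let φ := (Int.castRingHom ℂ).mapMatrix (m := Fin n)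
  have hφ : ∀ (M : Matrix (Fin n) (Fin n) ℤ) i j, φ M i j = ((M i j : ℤ) : ℂ) := fun M i j => rfl
  have e1 : φ A = Vᵀ * diagonal D * V := by
    ext i j
    rw [hφ, h1, mul_apply]
    refine Finset.sum_congr rfl fun k _ => ?_
    rw [mul_diagonal, transpose_apply]
    ring
  have e2 : φ A' = Vᵀ * diagonal D * (diagonal th * V) := by
    ext i j
    rw [hφ, h2, mul_apply]
    refine Finset.sum_congr rfl fun k _ => ?_
    rw [mul_diagonal, transpose_apply, diagonal_mul]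
    ring
  obtain ⟨N, hN⟩ : ∃ N, N = A⁻¹ * A' := ⟨_, rfl⟩
  have e3 : A * N = A' := by
    rw [hN, ← mul_assoc, mul_nonsing_inv A hA, one_mul]
  have hW : IsUnit (Vᵀ * diagonal D).det := by
    rw [det_mul, det_transpose, det_diagonal, isUnit_iff_ne_zero]
    exact mul_ne_zero hV (Finset.prod_ne_zero_iff.2 fun k _ => hD k)
  have e4 : V * φ N = diagonal th * V := by
    have h3 := congrArg φ e3
    rw [map_mul, e1, e2, mul_assoc] at h3
    have h4 := congrArg (fun M => (Vᵀ * diagonal D)⁻¹ * M) h3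
    simp only [← mul_assoc, nonsing_inv_mul _ hW, one_mul] at h4
    exact h4
  have e5 : ∀ m : ℕ, V * φ N ^ m = diagonal (fun k => th k ^ m) * V := by
    intro m
    induction m with
    | zero => simp
    | succ m ih =>
      rw [pow_succ, ← mul_assoc, ih, mul_assoc, e4, ← mul_assoc, diagonal_mul_diagonal]
      simp only [pow_succ]
  rw [← hN, ← hφ, map_mul, map_pow, e1, mul_assoc, e5, mul_apply]
  refine Finset.sum_congr rfl fun k _ => ?_
  rw [mul_diagonal, transpose_apply, diagonal_mul]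
  ring

end lin

/-! ### Roots -/

theorem geo_half (n : ℕ) : ∑ j ∈ Finset.range n, ((1 : ℝ) / 2) ^ (n - j) = 1 - (1 / 2) ^ n := by
  induction n with
  | zero => simp
  | succ n ih =>
    rw [Finset.sum_range_succ']
    have h1 : ∀ j ∈ Finset.range n, ((1 : ℝ) / 2) ^ (n + 1 - (j + 1)) = (1 / 2) ^ (n - j) := by
      intro j _
      congr 1
      omega
    rw [Finset.sum_congr rfl h1, ih, Nat.sub_zero, pow_succ]
    ring

theorem root_bd {g B : ℕ} {f : ℤ[X]} (hf : Ht g B f) {t : ℂ} (ht : aeval t f = 0) :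
    ‖t‖ ≤ 2 * B := by
  by_contra hcon
  push Not at hcon
  have hB : (0 : ℝ) ≤ B := Nat.cast_nonneg B
  have hr : 0 < ‖t‖ := by linarith
  have h1 : t ^ (2 * g + 1) = -∑ j ∈ Finset.range (2 * g + 1), ((f.coeff j : ℤ) : ℂ) * t ^ j := by
    rw [aeval_eq_sum_range, hf.deg, Finset.sum_range_succ] at ht
    have h2 : f.coeff (2 * g + 1) = 1 := by
      have := hf.mon.coeff_natDegree
      rwa [hf.deg] at this
    rw [h2, one_smul] at ht
    simp only [zsmul_eq_mul] at ht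
    exact eq_neg_of_add_eq_zero_right ht
  have h2 : ‖t‖ ^ (2 * g + 1) ≤ ∑ j ∈ Finset.range (2 * g + 1),
      ‖t‖ ^ (2 * g + 1) * (1 / 2) ^ (2 * g + 1 - j) := by
    rw [← norm_pow, h1, norm_neg]
    refine (norm_sum_le _ _).trans (Finset.sum_le_sum fun j hj => ?_)
    rw [Finset.mem_range] at hj
    rw [← norm_neg (∑ j ∈ Finset.range (2 * g + 1), ((f.coeff j : ℤ) : ℂ) * t ^ j), ← h1, norm_mul,
      norm_pow, norm_pow]
    have h3 : ‖((f.coeff j : ℤ) : ℂ)‖ ≤ (B : ℝ) ^ (2 * g + 1 - j) := by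
      rw [Complex.norm_intCast]
      have h4 := hf.ht j (by omega)
      exact_mod_cast h4
    have h5 : (B : ℝ) ^ (2 * g + 1 - j) ≤ (‖t‖ * (1 / 2)) ^ (2 * g + 1 - j) :=
      pow_le_pow_left₀ hB (by linarith) _
    calc ‖((f.coeff j : ℤ) : ℂ)‖ * ‖t‖ ^ j
        ≤ (‖t‖ * (1 / 2)) ^ (2 * g + 1 - j) * ‖t‖ ^ j :=
          mul_le_mul_of_nonneg_right (h3.trans h5) (by positivity)
      _ = ‖t‖ ^ (2 * g + 1 - j + j) * (1 / 2) ^ (2 * g + 1 - j) := by
          rw [mul_pow, pow_add]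
          ring
      _ = _ := by rw [Nat.sub_add_cancel hj.le]
  rw [← Finset.mul_sum, geo_half] at h2
  have h3 : 0 < ‖t‖ ^ (2 * g + 1) := by positivity
  have h4 : (0 : ℝ) < (1 / 2) ^ (2 * g + 1) := by positivity
  nlinarith

/-! ### The field -/

section field

variable {L : Type} [Field L] [NumberField L] {g : ℕ} {f : ℤ[X]} {θ : L}

/-- the conjugate embedding -/
noncomputable def cj (σ : L →ₐ[ℚ] ℂ) : L →ₐ[ℚ] ℂ :=
  ((Complex.conjAe.restrictScalars ℚ : ℂ ≃ₐ[ℚ] ℂ) : ℂ →ₐ[ℚ] ℂ).comp σ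

theorem cj_apply (σ : L →ₐ[ℚ] ℂ) (x : L) : cj σ x = conj (σ x) := rfl

theorem cj_cj (σ : L →ₐ[ℚ] ℂ) : cj (cj σ) = σ :=
  AlgHom.ext fun x => by rw [cj_apply, cj_apply, Complex.conj_conj]

theorem exists_emb (hG : IsGen g f θ) : Nonempty (Fin (2 * g + 1) ≃ (L →ₐ[ℚ] ℂ)) :=
  ⟨(Fintype.equivFinOfCardEq (by rw [AlgHom.card, hG.rank])).symm⟩

theorem emb_inj (hG : IsGen g f θ) {σ τ : L →ₐ[ℚ] ℂ} (h : σ θ = τ θ) : σ = τ := by
  refine AlgHom.ext fun x => ?_
  obtain ⟨c, rfl⟩ := hG.gen x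
  simp only [map_sum, map_mul, map_pow, map_ratCast, h]

theorem euler (hG : IsGen g f θ) (E : Fin (2 * g + 1) ≃ (L →ₐ[ℚ] ℂ)) (x : L) :
    ((hG.top x : ℚ) : ℂ) = ∑ k, E k x / ∏ l ∈ Finset.univ.erase k, (E k θ - E l θ) := by
  have hinj : Set.InjOn (fun k => E k θ)
      ((Finset.univ : Finset (Fin (2 * g + 1))) : Set (Fin (2 * g + 1))) :=
    fun k _ l _ h => E.injective (emb_inj hG h)
  obtain ⟨P, hP⟩ : ∃ P : ℂ[X], P =
      ∑ i : Fin (2 * g + 1), C ((hG.basis.repr x i : ℚ) : ℂ) * X ^ (i : ℕ) := ⟨_, rfl⟩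
  have hdeg : P.degree < ((Finset.univ : Finset (Fin (2 * g + 1))).card : ℕ) := by
    rw [Finset.card_fin, hP]
    exact degree_sum_fin_lt _
  have hco : P.coeff (2 * g) = ((hG.top x : ℚ) : ℂ) := by
    rw [hP, finsetSum_coeff, Finset.sum_eq_single (Fin.last (2 * g))]
    · rw [coeff_C_mul, coeff_X_pow, Fin.val_last, if_pos rfl, mul_one]
      rfl
    · intro i _ hi
      rw [coeff_C_mul, coeff_X_pow, if_neg, mul_zero]
      intro h
      exact hi (Fin.ext (by rw [Fin.val_last]; exact h.symm))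
    · intro h
      exact absurd (Finset.mem_univ _) h
  have hev : ∀ k, P.eval (E k θ) = E k x := by
    intro k
    conv_rhs => rw [← hG.basis.sum_repr x]
    rw [hP, eval_finsetSum, map_sum]
    refine Finset.sum_congr rfl fun i _ => ?_
    rw [eval_mul, eval_C, eval_pow, eval_X, hG.basis_apply, Algebra.smul_def, map_mul,
      AlgHom.commutes, map_pow]
    rfl
  have h1 := Lagrange.coeff_eq_sum hinj hdeg
  rw [Finset.card_fin, Nat.add_sub_cancel, hco] at h1
  rw [h1]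
  exact Finset.sum_congr rfl fun k _ => by rw [hev]

end field

theorem form_cast {n : ℕ} (M : Matrix (Fin n) (Fin n) ℤ) (v : Fin n → ℤ) :
    ((v ⬝ᵥ (M *ᵥ v) : ℤ) : ℝ) = (fun i => (v i : ℝ)) ⬝ᵥ
      (M.map (Int.cast : ℤ → ℝ) *ᵥ (fun i => (v i : ℝ))) := by
  simp only [dotProduct, mulVec, map_apply]
  push_cast
  rfl

theorem maj : S_MAJ := by
  intro g B L _ _ f θ hg hG hf α e A A' hα hL
  obtain ⟨E⟩ := exists_emb hG
  obtain ⟨c, hc⟩ : ∃ c : Equiv.Perm (Fin (2 * g + 1)), ∀ k, E (c k) = cj (E k) :=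
    ⟨Function.Involutive.toPerm (fun k => E.symm (cj (E k))) (fun k => by
      simp only [Equiv.apply_symm_apply, cj_cj, Equiv.symm_apply_apply]),
      fun k => E.apply_symm_apply _⟩
  obtain ⟨d, hd⟩ : ∃ d : Fin (2 * g + 1) → ℂ,
      ∀ k, d k = ∏ l ∈ Finset.univ.erase k, (E k θ - E l θ) := ⟨_, fun _ => rfl⟩
  have hd0 : ∀ k, d k ≠ 0 := by
    intro k
    rw [hd, Finset.prod_ne_zero_iff]
    intro l hl h0
    exact (Finset.mem_erase.1 hl).1 (E.injective (emb_inj hG (sub_eq_zero.1 h0))).symm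
  have hdc : ∀ k, d (c k) = conj (d k) := by
    intro k
    rw [hd, hd, map_prod]
    refine (Finset.prod_bij (fun l _ => c l) ?_ ?_ ?_ ?_).symm
    · intro l hl
      exact Finset.mem_erase.2 ⟨fun h => (Finset.mem_erase.1 hl).1 (c.injective h),
        Finset.mem_univ _⟩
    · intro l _ l' _ h
      exact c.injective h
    · intro l hl
      refine ⟨c.symm l, Finset.mem_erase.2 ⟨fun h => (Finset.mem_erase.1 hl).1 ?_,
        Finset.mem_univ _⟩, c.apply_symm_apply l⟩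
      rw [← h, c.apply_symm_apply]
    · intro l _
      rw [hc, hc, cj_apply, cj_apply, map_sub]
  obtain ⟨V, hVd⟩ : ∃ V : Matrix (Fin (2 * g + 1)) (Fin (2 * g + 1)) ℂ,
      ∀ k i, V k i = E k (e i) := ⟨Matrix.of fun k i => E k (e i), fun _ _ => rfl⟩
  obtain ⟨D, hDd⟩ : ∃ D : Fin (2 * g + 1) → ℂ, ∀ k, D k = (E k α * d k)⁻¹ := ⟨_, fun _ => rfl⟩
  have hEα : ∀ k, E k α ≠ 0 := fun k => (map_ne_zero (E k)).2 hα
  have hD0 : ∀ k, D k ≠ 0 := fun k => by
    rw [hDd]
    exact inv_ne_zero (mul_ne_zero (hEα k) (hd0 k))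
  have hVc : ∀ k i, V (c k) i = conj (V k i) := fun k i => by rw [hVd, hVd, hc, cj_apply]
  have hDc : ∀ k, D (c k) = conj (D k) := fun k => by
    rw [hDd, hDd, hdc, hc, cj_apply, map_inv₀, map_mul]
  have hA : ∀ i j, ((A i j : ℤ) : ℂ) = ∑ k, D k * V k i * V k j := by
    intro i j
    have h1 : ((A i j : ℤ) : ℂ) = (((A i j : ℤ) : ℚ) : ℂ) := by push_cast; rfl
    rw [h1, hL.gA, euler hG E]
    refine Finset.sum_congr rfl fun k _ => ?_
    rw [← hd, hDd, hVd, hVd, map_div₀, map_mul, mul_inv]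
    ring
  have hA' : ∀ i j, ((A' i j : ℤ) : ℂ) = ∑ k, D k * E k θ * V k i * V k j := by
    intro i j
    have h1 : ((A' i j : ℤ) : ℂ) = (((A' i j : ℤ) : ℚ) : ℂ) := by push_cast; rfl
    rw [h1, hL.gB, euler hG E]
    refine Finset.sum_congr rfl fun k _ => ?_
    rw [← hd, hDd, hVd, hVd, map_div₀, map_mul, map_mul, mul_inv]
    ring
  have hdet := det_eq V D A hA
  have hnorm : ‖V.det ^ 2 * ∏ k, D k‖ = 1 := by
    rw [← hdet]
    rcases hL.det with h | h <;> rw [h] <;> simp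
  have hV0 : V.det ≠ 0 := by
    intro h0
    rw [h0] at hnorm
    simp at hnorm
  have hroot : ∀ k, ‖E k θ‖ ≤ 2 * B := by
    intro k
    refine root_bd hf ?_
    have h1 : aeval (E k θ) f = (E k : L →+* ℂ) (aeval θ f) := by
      have h2 := aeval_algHom_apply ((E k).restrictScalars ℤ) θ f
      exact h2
    rw [h1, hG.root, map_zero]
  have hcast : ∀ M : Matrix (Fin (2 * g + 1)) (Fin (2 * g + 1)) ℤ, ∀ i j,
      (((M.map (Int.cast : ℤ → ℝ)) i j : ℝ) : ℂ) = ((M i j : ℤ) : ℂ) := fun M i j => by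
    rw [map_apply]
    push_cast
    rfl
  have hB : (0 : ℝ) ≤ 2 * B := by positivity
  refine ⟨HH V D, HH_pos V D hV0 hD0, HH_det V D c hVc hDc hnorm, fun x y => ?_, fun x y => ?_,
    fun v m => ?_, fun hα1 v j hj => ?_⟩
  · have h1 := bil V (A.map (Int.cast : ℤ → ℝ)) D (fun i j => by rw [hcast, hA]) x y
    have h2 := cs (fun k => ‖D k‖) (fun k => norm_nonneg _) 1 D (fun k => by rw [one_mul])
      (vx V x) (vx V y)
    rw [← h1, Complex.norm_real, Real.norm_eq_abs, sq_abs, one_pow, one_mul] at h2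
    rw [HH_form, HH_form]
    exact h2
  · have h1 := bil V (A'.map (Int.cast : ℤ → ℝ)) (fun k => D k * E k θ)
      (fun i j => by rw [hcast, hA']) x y
    have h2 := cs (fun k => ‖D k‖) (fun k => norm_nonneg _) (2 * B) (fun k => D k * E k θ)
      (fun k => by
        rw [norm_mul, mul_comm]
        exact mul_le_mul_of_nonneg_right (hroot k) (norm_nonneg _))
      (vx V x) (vx V y)
    rw [← h1, Complex.norm_real, Real.norm_eq_abs, sq_abs] at h2
    rw [HH_form, HH_form]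
    exact h2
  · have hAu : IsUnit A.det := by
      rcases hL.det with h | h <;> rw [h]
      · exact isUnit_one
      · exact isUnit_one.neg
    have h1 := bil V ((A * (A⁻¹ * A') ^ m).map (Int.cast : ℤ → ℝ)) (fun k => D k * E k θ ^ m)
      (fun i j => by
        rw [hcast, pow_form V D hV0 hD0 (fun k => E k θ) A A' hAu hA hA' m i j])
      (fun i => (v i : ℝ)) (fun i => (v i : ℝ))
    have h2 := cs (fun k => ‖D k‖) (fun k => norm_nonneg _) ((2 * B) ^ m)
      (fun k => D k * E k θ ^ m)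
      (fun k => by
        rw [norm_mul, norm_pow, mul_comm]
        exact mul_le_mul_of_nonneg_right (pow_le_pow_left₀ (norm_nonneg _) (hroot k) m)
          (norm_nonneg _))
      (vx V fun i => (v i : ℝ)) (vx V fun i => (v i : ℝ))
    rw [← h1, Complex.norm_real, Real.norm_eq_abs, ← form_cast, ← HH_form V D] at h2
    unfold form
    have h3 : 0 ≤ (fun i => (v i : ℝ)) ⬝ᵥ (HH V D *ᵥ (fun i => (v i : ℝ))) := by
      rw [HH_form]
      exact Finset.sum_nonneg fun k _ => by positivity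
    refine abs_le_of_sq_le_sq' ?_ (by positivity) |> abs_le.2
    rw [sq_abs] at h2
    calc _ ≤ _ := h2
      _ = _ := by ring
  · subst hα1
    have hvx : ∀ k, vx V (fun i => (v i : ℝ)) k = (j : ℂ) := by
      intro k
      have h1 := congrArg (E k) hj
      rw [map_intCast, map_sum] at h1
      rw [h1, vx]
      refine Finset.sum_congr rfl fun i _ => ?_
      rw [map_mul, map_intCast, hVd]
      push_cast
      ring
    rw [HH_form]
    obtain ⟨k0⟩ : Nonempty (Fin (2 * g + 1)) := ⟨0⟩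
    have h2 : ‖D k0‖ * ‖vx V (fun i => (v i : ℝ)) k0‖ ^ 2 ≤
        ∑ k, ‖D k‖ * ‖vx V (fun i => (v i : ℝ)) k‖ ^ 2 :=
      Finset.single_le_sum (f := fun k => ‖D k‖ * ‖vx V (fun i => (v i : ℝ)) k‖ ^ 2)
        (fun k _ => by positivity) (Finset.mem_univ k0)
    have h3 : ‖d k0‖ ≤ (4 * B : ℝ) ^ (2 * g) := by
      rw [hd, norm_prod]
      calc ∏ l ∈ Finset.univ.erase k0, ‖E k0 θ - E l θ‖
          ≤ ∏ l ∈ Finset.univ.erase k0, (4 * B : ℝ) := by
            refine Finset.prod_le_prod (fun l _ => norm_nonneg _) fun l _ => ?_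
            refine (norm_sub_le _ _).trans ?_
            have := hroot k0
            have := hroot l
            linarith
        _ = _ := by
            rw [Finset.prod_const, Finset.card_erase_of_mem (Finset.mem_univ _),
              Finset.card_fin, Nat.add_sub_cancel]
    have h4 : ‖d k0‖ * ‖D k0‖ = 1 := by
      rw [hDd, map_one, one_mul, norm_inv]
      exact mul_inv_cancel₀ (norm_ne_zero_iff.2 (hd0 k0))
    rw [hvx, Complex.norm_intCast, sq_abs] at h2
    calc (j : ℝ) ^ 2 = ‖d k0‖ * (‖D k0‖ * (j : ℝ) ^ 2) := by rw [← mul_assoc, h4, one_mul]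
      _ ≤ (4 * B : ℝ) ^ (2 * g) * ∑ k, ‖D k‖ * ‖vx V (fun i => (v i : ℝ)) k‖ ^ 2 :=
          mul_le_mul h3 h2 (by positivity) (by positivity)

end Pool.Agent.N348.PQ.MAJ
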